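import Mathlib

/-!
# A projectivity between the powers of two non-isomorphic groups

`Grp r` is the semidirect product of the cyclic group of order `25` and the infinite cyclic group,
the generator of which acts as the multiplication by the unit `r`. If `r ^ 5 = 1` then the map
`x ↦ x ^ 2` is a bijection from `Grp r` onto a subgroup isomorphic to `Grp (r ^ 2)`, and the same
map on the coordinates is a bijection of the powers of these groups which maps the subgroups onto
the subgroups.
-/

set_option autoImplicit false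

namespace Pool.Agent.N111.Schmidt

/-- The semidirect product of the cyclic group of order `25` and the infinite cyclic group, acting
by the powers of `r`. -/
@[ext] structure Grp (r : (ZMod 25)ˣ) where
  a : ZMod 25
  z : ℤ

variable {r : (ZMod 25)ˣ}

/-- The action. -/
def ac (r : (ZMod 25)ˣ) (z : ℤ) : ZMod 25 := ((r ^ z : (ZMod 25)ˣ) : ZMod 25)

lemma ac_add (m n : ℤ) : ac r (m + n) = ac r m * ac r n := by
  simp [ac, zpow_add]

lemma ac_zero : ac r 0 = 1 := by simp [ac]

lemma ac_neg_mul (m : ℤ) : ac r (-m) * ac r m = 1 := by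
  rw [← ac_add]; simp [ac_zero]

lemma ac_sq (m : ℤ) : ac (r ^ 2) m = ac r m * ac r m := by
  rw [← ac_add]
  unfold ac
  rw [← zpow_natCast, ← zpow_mul]
  congr 2
  push_cast
  ring

lemma ac_pow5 (hr : r ^ 5 = 1) (m : ℤ) : ac r m ^ 5 = 1 := by
  unfold ac
  rw [← Units.val_pow_eq_pow_val, ← zpow_natCast, ← zpow_mul, mul_comm, zpow_mul]
  have : r ^ ((5 : ℕ) : ℤ) = 1 := by rw [zpow_natCast]; exact hr
  rw [this]
  simp

instance : Mul (Grp r) := ⟨fun x y => ⟨x.a + ac r x.z * y.a, x.z + y.z⟩⟩
instance : One (Grp r) := ⟨⟨0, 0⟩⟩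
instance : Inv (Grp r) := ⟨fun x => ⟨-(ac r (-x.z) * x.a), -x.z⟩⟩

@[simp] lemma mul_a (x y : Grp r) : (x * y).a = x.a + ac r x.z * y.a := rfl
@[simp] lemma mul_z (x y : Grp r) : (x * y).z = x.z + y.z := rfl
@[simp] lemma one_a : (1 : Grp r).a = 0 := rfl
@[simp] lemma one_z : (1 : Grp r).z = 0 := rfl
@[simp] lemma inv_a (x : Grp r) : (x⁻¹).a = -(ac r (-x.z) * x.a) := rfl
@[simp] lemma inv_z (x : Grp r) : (x⁻¹).z = -x.z := rfl

instance : Group (Grp r) where
  mul_assoc x y z := by
    ext
    · simp [ac_add]; ring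
    · simp [add_assoc]
  one_mul x := by ext <;> simp [ac_zero]
  mul_one x := by ext <;> simp
  inv_mul_cancel x := by
    ext <;> simp

/-- The map `x ↦ x ^ 2`, as a map to `Grp (r ^ 2)`. -/
def f (x : Grp r) : Grp (r ^ 2) := ⟨(1 + ac r x.z) * x.a, x.z⟩

@[simp] lemma f_a (x : Grp r) : (f x).a = (1 + ac r x.z) * x.a := rfl
@[simp] lemma f_z (x : Grp r) : (f x).z = x.z := rfl

/-- The inverse of `1 + h` for `h ^ 5 = 1`. -/
def q (h : ZMod 25) : ZMod 25 := 13 * (1 - h + h ^ 2 - h ^ 3 + h ^ 4)

lemma q_mul {h : ZMod 25} (hh : h ^ 5 = 1) : q h * (1 + h) = 1 := by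
  have : q h * (1 + h) = 13 * (1 + h ^ 5) := by unfold q; ring
  rw [this, hh]; decide

/-- The inverse map. -/
def g (x : Grp (r ^ 2)) : Grp r := ⟨q (ac r x.z) * x.a, x.z⟩

lemma g_f (hr : r ^ 5 = 1) (x : Grp r) : g (f x) = x := by
  ext
  · show q (ac r x.z) * ((1 + ac r x.z) * x.a) = x.a
    rw [← mul_assoc, q_mul (ac_pow5 hr _), one_mul]
  · rfl

lemma f_g (hr : r ^ 5 = 1) (x : Grp (r ^ 2)) : f (g x) = x := by
  ext
  · show (1 + ac r x.z) * (q (ac r x.z) * x.a) = x.a
    rw [← mul_assoc, mul_comm (1 + ac r x.z), q_mul (ac_pow5 hr _), one_mul]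
  · rfl

variable {ι : Type}

/-- The elements of the power of the torsion subgroup. -/
def tor (r : (ZMod 25)ˣ) (t : ι → ZMod 25) : ι → Grp r := fun i => ⟨t i, 0⟩

/-- The part of a subgroup in the power of the torsion subgroup. -/
def S (U : Subgroup (ι → Grp r)) : AddSubgroup (ι → ZMod 25) where
  carrier := {t | tor r t ∈ U}
  add_mem' := by
    intro s t hs ht
    have h := U.mul_mem hs ht
    have : tor r (s + t) = tor r s * tor r t := by
      funext i; ext <;> simp [tor, ac_zero]
    show tor r (s + t) ∈ U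
    rw [this]; exact h
  zero_mem' := by
    have : tor r (0 : ι → ZMod 25) = 1 := by
      funext i; ext <;> simp [tor]
    show tor r (0 : ι → ZMod 25) ∈ U
    rw [this]; exact U.one_mem
  neg_mem' := by
    intro t ht
    have h := U.inv_mem ht
    have : tor r (-t) = (tor r t)⁻¹ := by
      funext i; ext <;> simp [tor, ac_zero]
    show tor r (-t) ∈ U
    rw [this]; exact h

/-- The operator on the power of the torsion subgroup given by an element. -/
def op (r : (ZMod 25)ˣ) {s : (ZMod 25)ˣ} (x : ι → Grp s) : ι → ZMod 25 := fun i => ac r (x i).z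

lemma S_conj {U : Subgroup (ι → Grp r)} {x : ι → Grp r} (hx : x ∈ U) {t : ι → ZMod 25}
    (ht : t ∈ S U) : op r x * t ∈ S U := by
  have h := U.mul_mem (U.mul_mem hx ht) (U.inv_mem hx)
  have : tor r (op r x * t) = x * tor r t * x⁻¹ := by
    funext i
    ext
    · simp only [tor, op, Pi.mul_apply, Pi.inv_apply, mul_a, mul_z, inv_a, add_zero]
      have := ac_neg_mul (r := r) (x i).z
      linear_combination ((x i).a) * this
    · simp [tor]
  show tor r (op r x * t) ∈ U
  rw [this]; exact h

/-- An additive subgroup which is invariant under `h` is invariant under `q h`. -/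
lemma inv_q {T : AddSubgroup (ι → ZMod 25)} {h : ι → ZMod 25} (hT : ∀ t ∈ T, h * t ∈ T)
    {t : ι → ZMod 25} (ht : t ∈ T) : (fun i => q (h i)) * t ∈ T := by
  have h1 := hT _ ht
  have h2 := hT _ h1
  have h3 := hT _ h2
  have h4 := hT _ h3
  have h5 := T.nsmul_mem (T.add_mem (T.sub_mem (T.add_mem (T.sub_mem ht h1) h2) h3) h4) 13
  have : (fun i => q (h i)) * t = 13 • (t - h * t + h * (h * t) - h * (h * (h * t))
      + h * (h * (h * (h * t)))) := by
    funext i
    simp only [q, Pi.mul_apply, Pi.smul_apply, Pi.add_apply, Pi.sub_apply, nsmul_eq_mul]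
    push_cast
    ring
  rw [this]; exact h5

variable (hr : r ^ 5 = 1)

include hr

lemma op_pow5 {s : (ZMod 25)ˣ} (x : ι → Grp s) (i : ι) : op r x i ^ 5 = 1 := ac_pow5 hr _

/-- Cancellation of `1 + h`. -/
lemma cancel {s : (ZMod 25)ˣ} {T : AddSubgroup (ι → ZMod 25)} {x : ι → Grp s}
    (hT : ∀ t ∈ T, op r x * t ∈ T) {t : ι → ZMod 25} (ht : (1 + op r x) * t ∈ T) : t ∈ T := by
  have h := inv_q hT ht
  have : (fun i => q (op r x i)) * ((1 + op r x) * t) = t := by
    funext i
    simp only [Pi.mul_apply, Pi.add_apply, Pi.one_apply]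
    rw [← mul_assoc, q_mul (op_pow5 hr x i), one_mul]
  rwa [this] at h

omit hr in
/-- The commutator of two elements of a subgroup. -/
lemma comm_mem {s : (ZMod 25)ˣ} {U : Subgroup (ι → Grp s)} {X Y : ι → Grp s} (hX : X ∈ U)
    (hY : Y ∈ U) :
    (fun i => (X i).a * (1 - ac s (Y i).z) - (1 - ac s (X i).z) * (Y i).a) ∈ S U := by
  have h := U.mul_mem (U.mul_mem hX hY) (U.mul_mem (U.inv_mem hX) (U.inv_mem hY))
  have h' : (X * Y) * (X⁻¹ * Y⁻¹) = tor s
      (fun i => (X i).a * (1 - ac s (Y i).z) - (1 - ac s (X i).z) * (Y i).a) := by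
    funext i
    ext
    · simp only [tor, Pi.mul_apply, Pi.inv_apply, mul_a, mul_z, inv_a, inv_z, ac_add]
      have h1 := ac_neg_mul (r := s) (X i).z
      have h2 := ac_neg_mul (r := s) (Y i).z
      linear_combination (-(ac s (Y i).z * (X i).a) - ac s (Y i).z * ac s (-(Y i).z) * (Y i).a) * h1
        - (Y i).a * h2
    · simp [tor]
      ring
  rw [h'] at h; exact h

omit hr in
lemma f_inv (x : Grp r) : f (x⁻¹) = (f x)⁻¹ := by
  ext
  · simp only [f_a, f_z, inv_a, inv_z, ac_sq]
    have h1 := ac_neg_mul (r := r) x.z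
    linear_combination (ac r (-x.z) * x.a) * h1
  · simp

lemma g_inv (x : Grp (r ^ 2)) : g (x⁻¹) = (g x)⁻¹ := by
  rw [← g_f hr (g x)⁻¹, f_inv, f_g hr]

/-- The image of a subgroup is a subgroup. -/
def img (U : Subgroup (ι → Grp r)) : Subgroup (ι → Grp (r ^ 2)) where
  carrier := {y | (fun i => g (y i)) ∈ U}
  mul_mem' := by
    intro x y hx hy
    have hx' : (fun i => g (x i)) ∈ U := hx
    have hy' : (fun i => g (y i)) ∈ U := hy
    obtain ⟨X, hX⟩ : ∃ X : ι → Grp r, X = fun i => g (x i) := ⟨_, rfl⟩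
    obtain ⟨Y, hY⟩ : ∃ Y : ι → Grp r, Y = fun i => g (y i) := ⟨_, rfl⟩
    rw [← hX] at hx'
    rw [← hY] at hy'
    have hxX : ∀ i, x i = f (X i) := fun i => by rw [hX]; exact (f_g hr _).symm
    have hyY : ∀ i, y i = f (Y i) := fun i => by rw [hY]; exact (f_g hr _).symm
    have hxy := U.mul_mem hx' hy'
    have hc := comm_mem hx' hy'
    have h1 := inv_q (fun t ht => S_conj hxy ht) hc
    have h2 := S_conj hy' (S_conj hy' (S_conj hy' (S_conj hy' h1)))
    have h3 := U.mul_mem hxy h2
    show (fun i => g ((x * y) i)) ∈ U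
    have : (fun i => g ((x * y) i)) = X * Y * tor r (op r Y * (op r Y * (op r Y * (op r Y *
        ((fun i => q (op r (X * Y) i)) * fun i => (X i).a * (1 - ac r (Y i).z) -
          (1 - ac r (X i).z) * (Y i).a))))) := by
      funext i
      ext
      · simp only [tor, Pi.mul_apply, mul_a, mul_z, g, hxX, hyY, f_a, f_z, op, ac_add, ac_sq]
        have hk := ac_pow5 hr (Y i).z
        have hQ : q (ac r (X i).z * ac r (Y i).z) * (1 + ac r (X i).z * ac r (Y i).z) = 1 := by
          refine q_mul ?_
          rw [mul_pow, ac_pow5 hr, ac_pow5 hr, one_mul]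
        linear_combination ((X i).a + ac r (X i).z * (Y i).a) * hQ -
          ac r (X i).z * q (ac r (X i).z * ac r (Y i).z) * ((X i).a * (1 - ac r (Y i).z) -
          (1 - ac r (X i).z) * (Y i).a) * hk
      · simp [tor, g, hxX, hyY]
    rw [this]; exact h3
  one_mem' := by
    have : (fun i => g ((1 : ι → Grp (r ^ 2)) i)) = (1 : ι → Grp r) := by
      funext i; ext <;> simp [g]
    show (fun i => g ((1 : ι → Grp (r ^ 2)) i)) ∈ U
    rw [this]; exact U.one_mem
  inv_mem' := by
    intro x hx
    have hx' : (fun i => g (x i)) ∈ U := hx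
    have h := U.inv_mem hx'
    show (fun i => g ((x⁻¹) i)) ∈ U
    have : (fun i => g ((x⁻¹) i)) = (fun i => g (x i))⁻¹ := by
      funext i
      simp only [Pi.inv_apply]
      exact g_inv hr _
    rw [this]; exact h

/-- The preimage of a subgroup is a subgroup. -/
def pre (W : Subgroup (ι → Grp (r ^ 2))) : Subgroup (ι → Grp r) where
  carrier := {x | (fun i => f (x i)) ∈ W}
  mul_mem' := by
    intro x y hx hy
    have hx' : (fun i => f (x i)) ∈ W := hx
    have hy' : (fun i => f (y i)) ∈ W := hy
    have hxy := W.mul_mem hx' hy'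
    -- `S W` is invariant under the action of `x`
    have key : ∀ z : ι → Grp r, (fun i => f (z i)) ∈ W → ∀ t ∈ S W, op r z * t ∈ S W := by
      intro z hz t ht
      have h := S_conj hz (S_conj hz (S_conj hz ht))
      have h' : op (r ^ 2) (fun i => f (z i)) * (op (r ^ 2) (fun i => f (z i)) *
          (op (r ^ 2) (fun i => f (z i)) * t)) = op r z * t := by
        funext i
        simp only [op, Pi.mul_apply, f_z, ac_sq]
        have hk := ac_pow5 hr (z i).z
        linear_combination (ac r (z i).z * t i) * hk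
      rwa [h'] at h
    have hc := comm_mem hx' hy'
    have hd : (fun i => (x i).a * (1 - ac r (y i).z) - (1 - ac r (x i).z) * (y i).a) ∈ S W := by
      refine cancel hr (key x hx') (cancel hr (key y hy') ?_)
      have : (1 + op r y) * ((1 + op r x) * fun i => (x i).a * (1 - ac r (y i).z) -
          (1 - ac r (x i).z) * (y i).a) = fun i => (f (x i)).a * (1 - ac (r ^ 2) (f (y i)).z) -
          (1 - ac (r ^ 2) (f (x i)).z) * (f (y i)).a := by
        funext i
        simp only [op, Pi.mul_apply, Pi.add_apply, Pi.one_apply, f_a, f_z, ac_sq]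
        ring
      rw [this]; exact hc
    have h1 := key x hx' _ (key x hx' _ (key x hx' _ (key x hx' _ hd)))
    have h2 := key y hy' _ (key y hy' _ (key y hy' _ h1))
    have h3 := W.mul_mem hxy (AddSubgroup.neg_mem _ h2)
    show (fun i => f ((x * y) i)) ∈ W
    have e : (fun i => f ((x * y) i)) = (fun i => f (x i)) * (fun i => f (y i)) * tor (r ^ 2)
        (-(op r y * (op r y * (op r y * (op r x * (op r x * (op r x * (op r x *
          fun i => (x i).a * (1 - ac r (y i).z) - (1 - ac r (x i).z) * (y i).a)))))))) := by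
      funext i
      ext
      · simp only [tor, op, Pi.mul_apply, Pi.neg_apply, mul_a, mul_z, f_a, f_z, ac_add, ac_sq]
        have hk := ac_pow5 hr (y i).z
        have hh := ac_pow5 hr (x i).z
        linear_combination ac r (x i).z * ((x i).a * (1 - ac r (y i).z) -
          (1 - ac r (x i).z) * (y i).a) * ac r (y i).z ^ 5 * hh + ac r (x i).z *
          ((x i).a * (1 - ac r (y i).z) - (1 - ac r (x i).z) * (y i).a) * hk
      · simp [tor]
    rw [e]; exact h3
  one_mem' := by
    have : (fun i => f ((1 : ι → Grp r) i)) = (1 : ι → Grp (r ^ 2)) := by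
      funext i; ext <;> simp
    show (fun i => f ((1 : ι → Grp r) i)) ∈ W
    rw [this]; exact W.one_mem
  inv_mem' := by
    intro x hx
    have hx' : (fun i => f (x i)) ∈ W := hx
    have h := W.inv_mem hx'
    show (fun i => f ((x⁻¹) i)) ∈ W
    have : (fun i => f ((x⁻¹) i)) = (fun i => f (x i))⁻¹ := by
      funext i
      simp only [Pi.inv_apply]
      exact f_inv _
    rw [this]; exact h

/-- The projectivity. -/
def proj : Subgroup (ι → Grp r) ≃o Subgroup (ι → Grp (r ^ 2)) where
  toFun := img hr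
  invFun := pre hr
  left_inv U := by
    ext x
    show (fun i => g (f (x i))) ∈ U ↔ x ∈ U
    simp only [g_f hr]
  right_inv W := by
    ext x
    show (fun i => f (g (x i))) ∈ W ↔ x ∈ W
    simp only [f_g hr]
  map_rel_iff' := by
    intro U V
    constructor
    · intro h x hx
      have : (fun i => f (x i)) ∈ img hr U := by
        show (fun i => g (f (x i))) ∈ U
        simpa only [g_f hr] using hx
      have h' := h this
      have h'' : (fun i => g (f (x i))) ∈ V := h'
      simpa only [g_f hr] using h''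
    · intro h x hx
      exact h (show (fun i => g (x i)) ∈ U from hx)

end Pool.Agent.N111.Schmidt
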