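import Pool.Agent.N894.WF.Defs

/-!
# Project WF (helper894), B2: from words to the free product (helper111)
-/

set_option autoImplicit false

open N894.WF

namespace Pool.Agent.N111.WF

variable {V : Type} {Γ : V → Type} [∀ v, Group (Γ v)]

/-- the homomorphism from the free group on all letters -/
noncomputable def hom {P : Type} [Group P] (φ : (v : V) → Γ v → P) :
    FreeGroup (Σ v, Γ v) →* P :=
  FreeGroup.lift fun x => φ x.1 x.2

/-- the map to the free product -/
noncomputable def pr (Γ : V → Type) [∀ v, Group (Γ v)] :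
    FreeGroup (Σ v, Γ v) →* Monoid.CoprodI Γ :=
  FreeGroup.lift fun x => Monoid.CoprodI.of x.2

/-- the relators -/
def rels (Γ : V → Type) [∀ v, Group (Γ v)] : Set (FreeGroup (Σ v, Γ v)) :=
  {r | ∃ (v : V) (a b : Γ v), r = FreeGroup.of ⟨v, a⟩ * FreeGroup.of ⟨v, b⟩ *
    (FreeGroup.of (⟨v, a * b⟩ : Σ v, Γ v))⁻¹}

theorem ker_pr {r : FreeGroup (Σ v, Γ v)} (h : pr Γ r = 1) :
    r ∈ Subgroup.normalClosure (rels Γ) := by
  let N := Subgroup.normalClosure (rels Γ)
  let θv : (v : V) → Γ v →* FreeGroup (Σ v, Γ v) ⧸ N := fun v =>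
    MonoidHom.mk' (fun a => ((FreeGroup.of (⟨v, a⟩ : Σ v, Γ v) : FreeGroup (Σ v, Γ v)) :
      FreeGroup (Σ v, Γ v) ⧸ N)) (by
      intro a b
      have h1 : FreeGroup.of ⟨v, a⟩ * FreeGroup.of ⟨v, b⟩ *
          (FreeGroup.of (⟨v, a * b⟩ : Σ v, Γ v))⁻¹ ∈ N :=
        Subgroup.subset_normalClosure ⟨v, a, b, rfl⟩
      have h2 := (QuotientGroup.eq_one_iff _).2 h1
      rw [QuotientGroup.mk_mul, QuotientGroup.mk_mul, QuotientGroup.mk_inv, mul_inv_eq_one] at h2
      exact h2.symm)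
  let θ : Monoid.CoprodI Γ →* FreeGroup (Σ v, Γ v) ⧸ N := Monoid.CoprodI.lift θv
  have h1 : θ.comp (pr Γ) = QuotientGroup.mk' N := by
    apply FreeGroup.ext_hom
    rintro ⟨v, a⟩
    simp only [MonoidHom.comp_apply, pr, FreeGroup.lift_apply_of, QuotientGroup.mk'_apply, θ,
      Monoid.CoprodI.lift_of]
    rfl
  have h2 : (QuotientGroup.mk' N) r = 1 := by
    rw [← h1, MonoidHom.comp_apply, h, map_one]
  exact (QuotientGroup.eq_one_iff _).1 h2

theorem errV_mono {P : Type} [Group P] {φ : (v : V) → Γ v → P} {F F' : Finset (Σ v, Γ v)}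
    {T : Finset P} (hF : F ⊆ F') (h : IsErrV φ F T) : IsErrV φ F' T := by
  intro t ht
  obtain ⟨x, v, a, b, ha, hb, e⟩ := h t ht
  exact ⟨x, v, a, b, hF ha, hF hb, e⟩

theorem key {r : FreeGroup (Σ v, Γ v)} (hr : r ∈ Subgroup.normalClosure (rels Γ)) :
    ∃ (F : Finset (Σ v, Γ v)) (n : ℕ), ∀ (P : Type) [Group P] (φ : (v : V) → Γ v → P) (x : P),
      ∃ T : Finset P, T.card ≤ n ∧ IsErrV φ F T ∧
        x * hom φ r * x⁻¹ ∈ Subgroup.closure (T : Set P) := by
  classical
  unfold Subgroup.normalClosure at hr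
  induction hr using Subgroup.closure_induction with
  | mem r hr =>
    rw [Group.mem_conjugatesOfSet_iff] at hr
    obtain ⟨r0, ⟨v, a, b, rfl⟩, hc⟩ := hr
    obtain ⟨c, hc⟩ := isConj_iff.1 hc
    refine ⟨{⟨v, a⟩, ⟨v, b⟩}, 1, fun P _ φ x => ⟨{x * hom φ r * x⁻¹}, by simp, ?_,
      Subgroup.subset_closure (by simp)⟩⟩
    intro t ht
    rw [Finset.mem_singleton] at ht
    refine ⟨x * hom φ c, v, a, b, by simp, by simp, ?_⟩
    rw [ht, ← hc]
    simp only [map_mul, map_inv, hom, FreeGroup.lift_apply_of, mul_inv_rev, mul_assoc]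
  | one =>
    refine ⟨∅, 0, fun P _ φ x => ⟨∅, by simp, fun t ht => by simp at ht, ?_⟩⟩
    simp
  | mul r s _ _ hr hs =>
    obtain ⟨F, n, h⟩ := hr
    obtain ⟨F', n', h'⟩ := hs
    refine ⟨F ∪ F', n + n', fun P _ φ x => ?_⟩
    obtain ⟨T, h1, h2, h3⟩ := h P φ x
    obtain ⟨T', h1', h2', h3'⟩ := h' P φ x
    refine ⟨T ∪ T', (Finset.card_union_le _ _).trans (by omega), ?_, ?_⟩
    · intro t ht
      rcases Finset.mem_union.1 ht with ht | ht
      · exact errV_mono Finset.subset_union_left h2 t ht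
      · exact errV_mono Finset.subset_union_right h2' t ht
    · have e : x * hom φ (r * s) * x⁻¹ = (x * hom φ r * x⁻¹) * (x * hom φ s * x⁻¹) := by
        rw [map_mul]; group
      rw [e]
      refine Subgroup.mul_mem _ (Subgroup.closure_mono ?_ h3) (Subgroup.closure_mono ?_ h3')
      · exact_mod_cast Finset.subset_union_left
      · exact_mod_cast Finset.subset_union_right
  | inv r _ hr =>
    obtain ⟨F, n, h⟩ := hr
    refine ⟨F, n, fun P _ φ x => ?_⟩
    obtain ⟨T, h1, h2, h3⟩ := h P φ x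
    refine ⟨T, h1, h2, ?_⟩
    have e : x * hom φ r⁻¹ * x⁻¹ = (x * hom φ r * x⁻¹)⁻¹ := by
      rw [map_inv]; group
    rw [e]
    exact Subgroup.inv_mem _ h3

theorem hom_list {P : Type} [Group P] (φ : (v : V) → Γ v → P) (l : List (Σ v, Γ v)) :
    hom φ (l.map FreeGroup.of).prod = ev φ l := by
  unfold ev hom
  rw [map_list_prod, List.map_map]
  congr 1
  apply List.map_congr_left
  intro x _
  simp

open Classical in
/-- the list of the letters of the normal form -/
noncomputable def lst (g : Monoid.CoprodI Γ) : List (Σ v, Γ v) :=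
  (Monoid.CoprodI.Word.equiv g).toList

open Classical in
theorem pr_lst (g : Monoid.CoprodI Γ) : pr Γ ((lst g).map FreeGroup.of).prod = g := by
  have h := (Monoid.CoprodI.Word.equiv (M := Γ)).symm_apply_apply g
  conv_rhs => rw [← h]
  show _ = Monoid.CoprodI.Word.prod (Monoid.CoprodI.Word.equiv g)
  unfold Monoid.CoprodI.Word.prod pr lst
  rw [map_list_prod, List.map_map]
  congr 1

theorem lst_ne {g : Monoid.CoprodI Γ} (hg : g ≠ 1) : lst g ≠ [] := by
  intro h
  apply hg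
  rw [← pr_lst g, h]
  simp

open Classical in
theorem t_B2 : N894.WF.LeafB2 := by
  intro V Γ _ hgood F0 K
  have hrel : ∀ g h : Monoid.CoprodI Γ, ((lst g).map FreeGroup.of).prod *
      ((lst h).map FreeGroup.of).prod * (((lst (g * h)).map FreeGroup.of).prod)⁻¹ ∈
      Subgroup.normalClosure (rels Γ) := by
    intro g h
    apply ker_pr
    rw [map_mul, map_mul, map_inv, pr_lst, pr_lst, pr_lst, mul_inv_cancel]
  choose F1 n1 hkey using fun g h => key (hrel g h)
  let FF : Finset (Σ v, Γ v) := ((F0 ×ˢ F0).biUnion fun z => F1 z.1 z.2) ∪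
    F0.biUnion fun g => (lst g).toFinset
  let n : ℕ := ∑ z ∈ F0 ×ˢ F0, n1 z.1 z.2
  let N : ℕ := ∑ g ∈ F0, (lst g).length
  obtain ⟨P, _, hP, φ, hφ⟩ := hgood FF (K * n) N
  refine ⟨P, inferInstance, hP, fun g => ev φ (lst g), fun T hT hE g hg hg1 hmem => ?_⟩
  have hT2 : ∀ t ∈ T, ∃ U : Finset P, U.card ≤ n ∧ IsErrV φ FF U ∧
      t ∈ Subgroup.closure (U : Set P) := by
    intro t ht
    obtain ⟨x, g, hg, h, hh, e⟩ := hE t ht
    obtain ⟨U, h1, h2, h3⟩ := hkey g h P φ x
    have hgh : (g, h) ∈ F0 ×ˢ F0 := Finset.mem_product.2 ⟨hg, hh⟩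
    refine ⟨U, h1.trans ?_, errV_mono ?_ h2, ?_⟩
    · exact Finset.single_le_sum (f := fun z : Monoid.CoprodI Γ × Monoid.CoprodI Γ => n1 z.1 z.2)
        (fun _ _ => Nat.zero_le _) hgh
    · refine Finset.Subset.trans ?_ Finset.subset_union_left
      exact Finset.subset_biUnion_of_mem
        (fun z : Monoid.CoprodI Γ × Monoid.CoprodI Γ => F1 z.1 z.2) hgh
    · rw [e]
      rw [map_mul, map_mul, map_inv, hom_list, hom_list, hom_list] at h3
      exact h3
  choose! U hU1 hU2 hU3 using hT2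
  have hcl : Subgroup.closure (T : Set P) ≤ Subgroup.closure ((T.biUnion U : Finset P) : Set P) := by
    rw [Subgroup.closure_le]
    intro t ht
    refine Subgroup.closure_mono ?_ (hU3 t ht)
    exact_mod_cast Finset.subset_biUnion_of_mem U ht
  refine hφ (lst g) (lst_ne hg1) ?_ ?_ ?_ (T.biUnion U) ?_ ?_ (hcl hmem)
  · exact Finset.single_le_sum (f := fun g : Monoid.CoprodI Γ => (lst g).length)
      (fun _ _ => Nat.zero_le _) hg
  · intro x hx
    refine ⟨Finset.mem_union_right _ (Finset.mem_biUnion.2 ⟨g, hg, List.mem_toFinset.2 hx⟩), ?_⟩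
    exact (Monoid.CoprodI.Word.equiv g).ne_one x hx
  · exact (Monoid.CoprodI.Word.equiv g).chain_ne
  · exact (Finset.card_biUnion_le_card_mul _ _ _ hU1).trans (Nat.mul_le_mul_right _ hT)
  · intro t ht
    obtain ⟨s, hs, hts⟩ := Finset.mem_biUnion.1 ht
    exact hU2 s hs t hts

end Pool.Agent.N111.WF
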